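import Pool.Agent.RF66.DoorR

/-!
Law R of helper60 at the heaviest elements: basic counts (hand proof: helper35, note 3270; typed by
helper66).
-/

set_option autoImplicit false
set_option linter.unusedSectionVars false

namespace Pool.Agent.KAP66

open QS
open Pool.Agent.MXR66 (va qr qm ql of_ql cancel)
open Pool.Agent.RF66 (LawR)

variable {S : QStruct}

/-- `c` is a value of `x` -/
def InQ (S : QStruct) (x : S.G) (c : S.Q) : Prop := ∃ z, S.q x z = c

/-- `|V_x ∩ V_y|` -/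
noncomputable def cv (S : QStruct) (x y : S.G) : ℕ :=
  Nat.card {v : S.G // S.q x v = S.zero ∧ S.q y v = S.zero}

/-- `|Q_x ∩ Q_y|` -/
noncomputable def cq (S : QStruct) (x y : S.G) : ℕ :=
  Nat.card {c : S.Q // InQ S x c ∧ InQ S y c}

theorem inQ_zero (x : S.G) : InQ S x S.zero := ⟨1, S.q_one x⟩

theorem inQ_self (x y : S.G) : InQ S x (S.q x y) := ⟨y, rfl⟩

theorem inQ_self' (x y : S.G) : InQ S y (S.q x y) := ⟨x, S.qs2 _ _⟩

/-- a common slot -/
theorem slot {x y : S.G} {a : S.Q} (h1 : InQ S x a) (h2 : InQ S y a) :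
    ∃ t, S.q x t = a ∧ S.q y t = a := by
  obtain ⟨z, hz⟩ := h1
  obtain ⟨z', hz'⟩ := h2
  obtain ⟨t, ht, ht'⟩ := S.qs4 x z y z' (hz.trans hz'.symm)
  exact ⟨t, ht ▸ hz, ht' ▸ hz'⟩

theorem qmul_left {x y v : S.G} (h : S.q y v = S.zero) : S.q (x * y) v = S.q x v := by
  rw [S.qs2, mul_comm, qr (by rw [S.qs2]; exact h), S.qs2]

theorem qmul_left' {x y v : S.G} (h : S.q x v = S.zero) : S.q (x * y) v = S.q y v := by
  rw [mul_comm, qmul_left h]

/-- `x t = a`, `x y t = a` gives `y t = 0` -/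
theorem slot0 {x y : S.G} {a : S.Q} (h1 : InQ S x a) (h2 : InQ S (x * y) a) :
    ∃ t, S.q x t = a ∧ S.q y t = S.zero := by
  obtain ⟨t, h3, h4⟩ := slot h1 h2
  refine ⟨t, h3, ?_⟩
  have := ql (h3.trans h4.symm)
  rwa [← mul_assoc, S.exp_two, one_mul] at this

theorem card_common {x y : S.G} {a : S.Q} (h1 : InQ S x a) (h2 : InQ S y a) :
    Nat.card {t : S.G // S.q x t = a ∧ S.q y t = a} = cv S x y := by
  obtain ⟨t, ht1, ht2⟩ := slot h1 h2
  unfold cv
  refine Nat.card_congr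
    { toFun := fun v => ⟨v.1 * t, ?_, ?_⟩
      invFun := fun v => ⟨v.1 * t, ?_, ?_⟩
      left_inv := fun v => Subtype.ext ?_
      right_inv := fun v => Subtype.ext ?_ }
  · exact qm (v.2.1.trans ht1.symm)
  · exact qm (v.2.2.trans ht2.symm)
  · rw [qr v.2.1]; exact ht1
  · rw [qr v.2.2]; exact ht2
  · show v.1 * t * t = v.1
    rw [mul_assoc, S.exp_two, mul_one]
  · show v.1 * t * t = v.1
    rw [mul_assoc, S.exp_two, mul_one]

theorem cv_self (x : S.G) : cv S x x = va S x := by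
  unfold cv va
  exact Nat.card_congr (Equiv.subtypeEquivRight fun v => and_self_iff)

theorem cv_comm (x y : S.G) : cv S x y = cv S y x := by
  unfold cv
  exact Nat.card_congr (Equiv.subtypeEquivRight fun v => and_comm)

theorem cq_comm (x y : S.G) : cq S x y = cq S y x := by
  unfold cq
  exact Nat.card_congr (Equiv.subtypeEquivRight fun v => and_comm)

theorem card_coset {x : S.G} {a : S.Q} (h1 : InQ S x a) :
    Nat.card {t : S.G // S.q x t = a} = va S x := by
  rw [← cv_self, ← card_common h1 h1]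
  exact Nat.card_congr (Equiv.subtypeEquivRight fun v => (and_self_iff).symm)

/-- `V_x ∩ V_(xy) = V_x ∩ V_y` -/
theorem cv_mul (x y : S.G) : cv S x (x * y) = cv S x y := by
  unfold cv
  refine Nat.card_congr (Equiv.subtypeEquivRight fun v => ?_)
  constructor
  · rintro ⟨h1, h2⟩
    exact ⟨h1, by rwa [qmul_left' h1] at h2⟩
  · rintro ⟨h1, h2⟩
    exact ⟨h1, by rwa [qmul_left' h1]⟩

variable [Finite S.G]

theorem finQ : Finite S.Q := RF66.finite_Q S

theorem card_mul (x y : S.G) : va S (x * y) = cv S x y * cq S x y := by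
  classical
  have := Fintype.ofFinite S.G
  have := finQ (S := S)
  have := Fintype.ofFinite S.Q
  have e : {v : S.G // S.q (x * y) v = S.zero} ≃
      Σ c : {c : S.Q // InQ S x c ∧ InQ S y c}, {t : S.G // S.q x t = c.1 ∧ S.q y t = c.1} :=
    { toFun := fun v => ⟨⟨S.q x v.1, ⟨v.1, rfl⟩, ⟨v.1, (of_ql v.2).symm⟩⟩,
        ⟨v.1, rfl, (of_ql v.2).symm⟩⟩
      invFun := fun v => ⟨v.2.1, ql (v.2.2.1.trans v.2.2.2.symm)⟩
      left_inv := fun v => rfl
      right_inv := by
        rintro ⟨⟨c, hc⟩, ⟨t, ht⟩⟩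
        have e : c = S.q x t := ht.1.symm
        subst e
        rfl }
  unfold va
  rw [Nat.card_congr e, Nat.card_sigma]
  rw [Finset.sum_congr rfl fun c _ => card_common c.2.1 c.2.2, Finset.sum_const]
  unfold cq
  rw [Nat.card_eq_fintype_card, smul_eq_mul, mul_comm, Finset.card_univ]

/-- the count of `(t, t')` with `g t = t t' = t' s = a` -/
theorem count {g s : S.G} {a : S.Q} (hg : InQ S g a) (hs : InQ S s a)
    [Fintype {t : S.G // S.q g t = a}] [Fintype {t : S.G // S.q s t = a}] :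
    ∑ t : {t : S.G // S.q g t = a}, cv S t.1 s = ∑ t : {t : S.G // S.q s t = a}, cv S g t.1 := by
  classical
  have := Fintype.ofFinite S.G
  have h1 : ∀ t : {t : S.G // S.q g t = a}, cv S t.1 s =
      Nat.card {v : S.G // S.q t.1 v = a ∧ S.q s v = a} := fun t =>
    (card_common ⟨g, by rw [S.qs2]; exact t.2⟩ hs).symm
  have h2 : ∀ t : {t : S.G // S.q s t = a}, cv S g t.1 =
      Nat.card {v : S.G // S.q g v = a ∧ S.q t.1 v = a} := fun t =>
    (card_common hg ⟨s, by rw [S.qs2]; exact t.2⟩).symm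
  rw [Finset.sum_congr rfl fun t _ => h1 t, Finset.sum_congr rfl fun t _ => h2 t,
    ← Nat.card_sigma, ← Nat.card_sigma]
  refine Nat.card_congr
    { toFun := fun p => ⟨⟨p.2.1, p.2.2.2⟩, ⟨p.1.1, p.1.2, by rw [S.qs2]; exact p.2.2.1⟩⟩
      invFun := fun p => ⟨⟨p.2.1, p.2.2.1⟩, ⟨p.1.1, by rw [S.qs2]; exact p.2.2.2, p.1.2⟩⟩
      left_inv := fun _ => rfl
      right_inv := fun _ => rfl }

theorem cv_pos (x y : S.G) : 1 ≤ cv S x y := by
  have : Nonempty {v : S.G // S.q x v = S.zero ∧ S.q y v = S.zero} :=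
    ⟨⟨1, S.q_one x, S.q_one y⟩⟩
  exact Nat.card_pos

theorem cv_two {x y v : S.G} (h1 : S.q x v = S.zero) (h2 : S.q y v = S.zero) (hv : v ≠ 1) :
    2 ≤ cv S x y := by
  classical
  have := Fintype.ofFinite S.G
  unfold cv
  rw [Nat.card_eq_fintype_card]
  exact Fintype.one_lt_card_iff.2 ⟨⟨1, S.q_one x, S.q_one y⟩, ⟨v, h1, h2⟩,
    fun e => hv (congrArg Subtype.val e).symm⟩

theorem cv_one {x y : S.G} (h : ∀ v, S.q x v = S.zero → S.q y v = S.zero → v = 1) :
    cv S x y = 1 := by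
  unfold cv
  have : Unique {v : S.G // S.q x v = S.zero ∧ S.q y v = S.zero} :=
    { default := ⟨1, S.q_one x, S.q_one y⟩
      uniq := fun v => Subtype.ext (h v.1 v.2.1 v.2.2) }
  exact Nat.card_unique

theorem va_pos (x : S.G) : 1 ≤ va S x := by
  rw [← cv_self]; exact cv_pos x x

theorem cq_two {x y : S.G} {c : S.Q} (h1 : InQ S x c) (h2 : InQ S y c) (hc : c ≠ S.zero) :
    2 ≤ cq S x y := by
  classical
  have := finQ (S := S)
  have := Fintype.ofFinite S.Q
  unfold cq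
  rw [Nat.card_eq_fintype_card]
  exact Fintype.one_lt_card_iff.2 ⟨⟨S.zero, inQ_zero x, inQ_zero y⟩, ⟨c, h1, h2⟩,
    fun e => hc (congrArg Subtype.val e).symm⟩

/-- if `|Q_x ∩ Q_y| ≥ 3` there is a third common value -/
theorem exists_third {x y : S.G} (b : S.Q) (h : 3 ≤ cq S x y) :
    ∃ c, InQ S x c ∧ InQ S y c ∧ c ≠ S.zero ∧ c ≠ b := by
  classical
  have := finQ (S := S)
  have := Fintype.ofFinite S.Q
  by_contra hno
  push Not at hno
  have hsub : ∀ c : {c : S.Q // InQ S x c ∧ InQ S y c}, c.1 ∈ ({S.zero, b} : Finset S.Q) := by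
    intro c
    rw [Finset.mem_insert, Finset.mem_singleton]
    by_cases h0 : c.1 = S.zero
    · exact Or.inl h0
    · exact Or.inr (hno _ c.2.1 c.2.2 h0)
  have : cq S x y ≤ ({S.zero, b} : Finset S.Q).card := by
    unfold cq
    have h3 := Nat.card_le_card_of_injective
      (fun c : {c : S.Q // InQ S x c ∧ InQ S y c} =>
        (⟨c.1, hsub c⟩ : {c : S.Q // c ∈ ({S.zero, b} : Finset S.Q)}))
      (fun c c' e => Subtype.ext (congrArg (fun z => z.1) e))
    refine h3.trans (le_of_eq ?_)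
    rw [Nat.card_eq_fintype_card, Fintype.card_coe]
  have h2 : ({S.zero, b} : Finset S.Q).card ≤ 2 := Finset.card_le_two
  omega

/-- if there is no third common value, `|Q_x ∩ Q_y| ≤ 2` -/
theorem cq_le_two {x y : S.G} (b : S.Q)
    (h : ∀ c, InQ S x c → InQ S y c → c = S.zero ∨ c = b) : cq S x y ≤ 2 := by
  by_contra hlt
  push Not at hlt
  obtain ⟨c, h1, h2, h3, h4⟩ := exists_third (x := x) (y := y) b hlt
  rcases h c h1 h2 with h | h
  · exact h3 h
  · exact h4 h

end Pool.Agent.KAP66
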