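import Pool.Agent.KAP66.Viol

/-!
Law R of helper60 at the heaviest elements, violating pairs with `V_g ∩ V_s = 0`, steps (3)-(6)
(hand proof: helper35, note 3270; typed by helper66).
-/

set_option autoImplicit false
set_option linter.unusedSectionVars false

namespace Pool.Agent.KAP66

open QS
open Pool.Agent.MXR66 (va qr qm ql of_ql cancel)
open Pool.Agent.RF66 (LawR)

variable {S : QStruct}

theorem mm (g s : S.G) : g * (g * s) = s := by rw [← mul_assoc, S.exp_two, one_mul]

theorem mul_ne_one {g s : S.G} (h : g ≠ s) : g * s ≠ 1 := fun e => h (by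
  calc g = g * (s * s) := by rw [S.exp_two, mul_one]
    _ = (g * s) * s := (mul_assoc _ _ _).symm
    _ = s := by rw [e, one_mul])

theorem exists_of_cv [Finite S.G] {x y : S.G} (h : 2 ≤ cv S x y) :
    ∃ v, v ≠ 1 ∧ S.q x v = S.zero ∧ S.q y v = S.zero := by
  by_contra hno
  push Not at hno
  have : cv S x y = 1 := cv_one fun v h1 h2 => by
    by_contra hv
    exact hno v hv h1 h2
  omega

theorem even_cv [Finite S.G] {x y : S.G} (h : 2 ≤ cv S x y) : Even (cv S x y) := by
  obtain ⟨n, hn⟩ := cv_pow x y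
  rw [hn] at h ⊢
  rcases n with _ | n
  · norm_num at h
  · exact ⟨2 ^ n, by rw [pow_succ]; ring⟩

section

variable [Finite S.G] (hneg : S.neg = 1) (hk : K1 S)

include hneg hk

theorem cv_viol {g s : S.G} (hv : Viol S g s) : cv S g s = 1 := cv_one (hk g s hv)

theorem va_s {g s : S.G} (hv : Viol S g s) : va S s = cq S g (g * s) := by
  have h := card_mul g (g * s)
  rw [mm, cv_mul, cv_viol hneg hk hv, one_mul] at h
  exact h

theorem va_gs {g s : S.G} (hv : Viol S g s) : va S (g * s) = cq S g s := by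
  have h := card_mul g s
  rw [cv_viol hneg hk hv, one_mul] at h
  exact h

/-- (3): `s` is heavy -/
theorem three {g s : S.G} (hv : Viol S g s) : va S s = va S g := by
  classical
  have := finQ (S := S)
  have hs1 : s ≠ 1 := ne_one_of_q hv.2.1
  have hgs : g ≠ s := by
    rintro rfl
    exact hv.2.1 (qself hneg g)
  have hgs1 : g * s ≠ 1 := mul_ne_one hgs
  have le1 : va S s ≤ va S g := hv.1.2 s hs1
  have le2 : va S (g * s) ≤ va S g := hv.1.2 _ hgs1
  have hb : InQ S (g * s) (S.q g s) := ⟨s, qmul_left (qself hneg s)⟩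
  by_cases hA : ∃ a, InQ S g a ∧ InQ S s a ∧ ¬ InQ S (g * s) a
  · obtain ⟨a, h1, h2, h3⟩ := hA
    refine le_antisymm le1 (two_a hneg hk hv ⟨h1, h2, ?_, ?_⟩ h3)
    · rintro rfl; exact h3 (inQ_zero _)
    · rintro rfl; exact h3 hb
  · push Not at hA
    by_cases hB : ∃ a, InQ S g a ∧ InQ S (g * s) a ∧ ¬ InQ S s a
    · obtain ⟨a, h1, h2, h3⟩ := hB
      have h4 : va S g ≤ va S (g * s) := by
        refine two_a hneg hk (hv.mul hneg) (a := a) ⟨h1, h2, ?_, ?_⟩ ?_
        · rintro rfl; exact h3 (inQ_zero _)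
        · rw [q_mul_self hneg]; rintro rfl; exact h3 (inQ_self' _ _)
        · rw [mm]; exact h3
      have h5 : va S (g * s) ≤ va S s := by
        rw [va_s hneg hk hv, va_gs hneg hk hv]
        unfold cq
        exact Nat.card_le_card_of_injective
          (fun c : {c : S.Q // InQ S g c ∧ InQ S s c} =>
            (⟨c.1, c.2.1, hA c.1 c.2.1 c.2.2⟩ : {c : S.Q // InQ S g c ∧ InQ S (g * s) c}))
          (fun v v' e => Subtype.ext (congrArg (fun z => z.1) e))
      omega
    · push Not at hB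
      have ha : ∃ a, Third S g s (S.q g s) a ∧ InQ S (g * s) a := by
        rcases hv.2.2 with ⟨c, h1, h2, h3, h4⟩ | ⟨c, h1, h2, h3, h4⟩
        · exact ⟨c, ⟨h1, h2, h3, h4⟩, hA c h1 h2⟩
        · exact ⟨c, ⟨h1, hB c h1 h2, h3, h4⟩, h2⟩
      obtain ⟨a, ha, ha'⟩ := ha
      obtain ⟨z, hz, hz', hle⟩ := two_b hneg hk hv ha ha'
      by_contra hne
      have hlt : va S s < va S g := lt_of_le_of_ne le1 hne
      obtain ⟨m, hm⟩ := va_pow s
      obtain ⟨n, hn⟩ := va_pow g
      obtain ⟨l, hl⟩ := cv_pow g z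
      have h1 : 2 * va S s ≤ va S g := by
        rw [hm, hn] at hlt ⊢
        exact two_le_of_lt hlt
      have h2 : cv S g z = va S g := by
        refine le_antisymm (cv_le g z) ?_
        by_contra hlt2
        push Not at hlt2
        have h3 : 2 * cv S g z ≤ va S g := by
          rw [hl, hn] at hlt2 ⊢
          exact two_le_of_lt hlt2
        omega
      have hgz : g ≠ z := by
        rintro rfl
        exact ha.2.2.2 (by rw [← hz, S.qs2])
      have h3 := hv.1.2 _ (mul_ne_one hgz)
      rw [card_mul, h2] at h3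
      have h4 : 2 ≤ cq S g z := cq_two ha.1 ⟨s, by rw [S.qs2]; exact hz⟩ ha.2.2.1
      have h5 := va_pos g
      have h6 : va S g * 2 ≤ va S g * cq S g z := Nat.mul_le_mul_left _ h4
      omega

theorem heavy_s {g s : S.G} (hv : Viol S g s) : Heavy S s :=
  ⟨ne_one_of_q hv.2.1, fun x hx => by rw [three hneg hk hv]; exact hv.1.2 x hx⟩

/-- (4) -/
theorem viol_step {g s x : S.G} (hv : Viol S g s) (hx : S.q s x = S.zero) (hx1 : x ≠ 1) :
    Viol S g x := by
  by_cases hxs : x = s
  · rw [hxs]; exact hv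
  · have h1 : S.q g x ≠ S.zero := fun h => hx1 (hk g s hv x h hx)
    refine viol_a (w := s) hv.1 h1 (by rw [S.qs2]; exact hx) hv.2.1 fun h => ?_
    refine mul_ne_one hxs (hk g s hv _ (qm h.symm) ?_)
    rw [qr hx]
    exact qself hneg s

variable (h4 : ∀ x : S.G, x ≠ 1 → 4 ≤ va S x)

include h4

theorem viol_symm {g s : S.G} (hv : Viol S g s) : Viol S s g := by
  refine ⟨heavy_s hneg hk hv, by rw [S.qs2]; exact hv.2.1, Or.inr ?_⟩
  have h := card_mul s (s * g)
  rw [mm, cv_mul, cv_comm, cv_viol hneg hk hv, one_mul] at h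
  have := h4 g hv.1.1
  exact exists_third (S.q s g) (by omega)

/-- connected by commuting steps -/
def Conn (S : QStruct) (g y : S.G) : Prop :=
  Relation.ReflTransGen (fun a b : S.G => b ≠ 1 ∧ S.q a b = S.zero) g y

omit hneg hk h4 [Finite S.G] in
theorem Conn.step {g y z : S.G} (h : Conn S g y) (hz : z ≠ 1) (hq : S.q y z = S.zero) :
    Conn S g z := Relation.ReflTransGen.tail h ⟨hz, hq⟩

omit hneg hk h4 [Finite S.G] in
theorem Conn.ne {g y : S.G} (hg : g ≠ 1) (h : Conn S g y) : y ≠ 1 := by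
  unfold Conn at h
  induction h with
  | refl => exact hg
  | tail _ h _ => exact h.1

omit hneg hk h4 [Finite S.G] in
theorem Conn.symm {g y : S.G} (hg : g ≠ 1) (h : Conn S g y) : Conn S y g := by
  unfold Conn at h
  induction h with
  | refl => exact Relation.ReflTransGen.refl
  | @tail b c hb h ih =>
    exact Relation.ReflTransGen.head ⟨Conn.ne hg hb, by rw [S.qs2]; exact h.2⟩ ih

omit hneg hk h4 [Finite S.G] in
theorem Conn.trans {g y z : S.G} (h : Conn S g y) (h' : Conn S y z) : Conn S g z :=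
  Relation.ReflTransGen.trans h h'

theorem conn_viol {g v y : S.G} (hv : Viol S g v) (h : Conn S g y) : Viol S y v := by
  unfold Conn at h
  induction h with
  | refl => exact hv
  | tail _ h ih =>
    exact viol_symm hneg hk h4 (viol_step hneg hk (viol_symm hneg hk h4 ih) h.2 h.1)

theorem not_viol {y y' : S.G} (h : Conn S y y') : ¬ Viol S y y' := fun hv =>
  (conn_viol hneg hk h4 hv h).2.1 (qself hneg _)

/-- every element `≠ 1` has a partner -/
theorem all_viol {g v : S.G} (hv : Viol S g v) : ∀ w : S.G, w ≠ 1 → ∃ u, Viol S w u := by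
  intro w hw
  by_cases hc : Conn S g w
  · exact ⟨v, conn_viol hneg hk h4 hv hc⟩
  · have hg1 := hv.1.1
    have h1 : S.q g w ≠ S.zero := fun h => hc (Relation.ReflTransGen.single ⟨hw, h⟩)
    have h2 : cv S g w = 1 := cv_one fun x hx hx' => by
      by_contra hx1
      exact hc (Conn.step (Relation.ReflTransGen.single ⟨hx1, hx⟩) hw (by
        rw [S.qs2]; exact hx'))
    have h := card_mul g (g * w)
    rw [mm, cv_mul, h2, one_mul] at h
    have := h4 w hw
    exact ⟨g, viol_symm hneg hk h4 ⟨hv.1, h1, Or.inr (exists_third (S.q g w) (by omega))⟩⟩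

variable (hall : ∀ w : S.G, w ≠ 1 → ∃ u, Viol S w u)

include hall

omit hneg hk h4 [Finite S.G] in
theorem all_heavy {w : S.G} (hw : w ≠ 1) : Heavy S w := by
  obtain ⟨u, hu⟩ := hall w hw
  exact hu.1

omit hneg hk h4 [Finite S.G] in
theorem va_eq {w w' : S.G} (hw : w ≠ 1) (hw' : w' ≠ 1) : va S w = va S w' :=
  le_antisymm ((all_heavy hall hw').2 w hw) ((all_heavy hall hw).2 w' hw')

/-- two connected noncommuting elements -/
theorem two_cv {s s' : S.G} (hs : s ≠ 1) (hc : Conn S s s') (hq : S.q s s' ≠ S.zero) :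
    2 * cv S s s' = va S s := by
  have hs' : s' ≠ 1 := Conn.ne hs hc
  have h := card_mul s (s * s')
  rw [mm, cv_mul] at h
  have h1 : cq S s (s * s') ≤ 2 := by
    refine cq_le_two (S.q s s') fun c h1 h2 => ?_
    by_contra hno
    push Not at hno
    exact not_viol hneg hk h4 hc ⟨all_heavy hall hs, hq, Or.inr ⟨c, h1, h2, hno.1, hno.2⟩⟩
  have h2 : 2 ≤ cq S s (s * s') :=
    cq_two (inQ_self _ _) ⟨s', qmul_left (qself hneg s')⟩ hq
  have h3 : cq S s (s * s') = 2 := le_antisymm h1 h2
  rw [h3] at h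
  rw [va_eq hall hs hs', h, mul_comm]

theorem conn_mul {g y y' : S.G} (hg : g ≠ 1) (h : Conn S g y) (h' : Conn S g y')
    (hne : y ≠ y') : Conn S g (y * y') := by
  have hy : y ≠ 1 := Conn.ne hg h
  by_cases hq : S.q y y' = S.zero
  · exact h.step (mul_ne_one hne) (by rw [qr (qself hneg y)]; exact hq)
  · have h1 := two_cv hneg hk h4 hall hy ((h.symm hg).trans h') hq
    have h2 := h4 y hy
    obtain ⟨x, hx1, hx2, hx3⟩ := exists_of_cv (x := y) (y := y') (by omega)
    refine (h.step hx1 hx2).step (mul_ne_one hne) ?_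
    rw [qr (by rw [S.qs2]; exact hx2), S.qs2]
    exact hx3

/-- the subspace `P` -/
def Pg (g : S.G) (hg : g ≠ 1) : Subgroup S.G where
  carrier := {y | y = 1 ∨ Conn S g y}
  one_mem' := Or.inl rfl
  mul_mem' := by
    rintro a b (rfl | ha) hb
    · rw [one_mul]; exact hb
    · rcases hb with rfl | hb
      · rw [mul_one]; exact Or.inr ha
      · by_cases hab : a = b
        · left
          rw [hab, S.exp_two]
        · exact Or.inr (conn_mul hneg hk h4 hall hg ha hb hab)
  inv_mem' := fun {a} ha => by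
    have : a⁻¹ = a := inv_eq_of_mul_eq_one_left (S.exp_two a)
    rw [this]; exact ha

end

end Pool.Agent.KAP66
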