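import Pool.Agent.KAP66.Basic

/-!
Step (7) of helper35, note 3270: for `w` with value `a ≠ 0`, the product of all `v` with value `a`,
each taken `|V_w ∩ V_v|` times, is 1, if all `|V_t| ≥ 4`.
-/

set_option autoImplicit false
set_option linter.unusedSectionVars false

namespace Pool.Agent.KAP66

open QS
open Pool.Agent.MXR66 (va qr qm ql of_ql cancel)

section

variable {G : Type} [CommGroup G]

/-- the subgroup `{1, k, l, k l}` -/
def four (h2 : ∀ g : G, g * g = 1) (k l : G) : Subgroup G where
  carrier := {x | x = 1 ∨ x = k ∨ x = l ∨ x = k * l}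
  one_mem' := Or.inl rfl
  mul_mem' := by
    intro x y hx hy
    have h2' : ∀ a b : G, a * (a * b) = b := fun a b => by rw [← mul_assoc, h2, one_mul]
    rcases hx with rfl | rfl | rfl | rfl <;> rcases hy with rfl | rfl | rfl | rfl <;>
      simp [h2, h2', mul_assoc, mul_comm, mul_left_comm]
  inv_mem' := by
    intro x hx
    have : x⁻¹ = x := inv_eq_of_mul_eq_one_left (h2 x)
    rwa [this]

theorem mem_four {h2 : ∀ g : G, g * g = 1} {k l x : G} :
    x ∈ four h2 k l ↔ x = 1 ∨ x = k ∨ x = l ∨ x = k * l := Iff.rfl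

theorem prod4 (h2 : ∀ g : G, g * g = 1) [DecidableEq G] (s : Finset G) {k l : G}
    (hk : k ≠ 1) (hl : l ≠ 1) (hkl : k ≠ l) (h1 : ∀ v ∈ s, v * k ∈ s) (h3 : ∀ v ∈ s, v * l ∈ s) :
    ∏ v ∈ s, v = 1 := by
  classical
  have hkl1 : k * l ≠ 1 := fun h => hkl (by
    calc k = k * (l * l) := by rw [h2, mul_one]
      _ = l := by rw [← mul_assoc, h, one_mul])
  let R : Setoid G :=
    { r := fun a b => a * b ∈ four h2 k l
      iseqv :=
        { refl := fun a => by rw [h2]; exact one_mem _
          symm := fun {a b} h => by rw [mul_comm]; exact h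
          trans := fun {a b c} h h' => by
            have := mul_mem h h'
            rwa [show a * b * (b * c) = a * (b * b) * c by ac_rfl, h2, mul_one] at this } }
  refine Finset.prod_cancels_of_partition_cancels R fun x hx => ?_
  have e : (s.filter fun y => R y x) = {x, x * k, x * l, x * (k * l)} := by
    ext y
    simp only [Finset.mem_filter, Finset.mem_insert, Finset.mem_singleton]
    have hy : ∀ z : G, y * x = z ↔ y = x * z := fun z => by
      constructor
      · rintro rfl
        rw [show x * (y * x) = y * (x * x) by ac_rfl, h2, mul_one]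
      · rintro rfl
        rw [show x * z * x = z * (x * x) by ac_rfl, h2, mul_one]
    have hR : R y x ↔ (y * x = 1 ∨ y * x = k ∨ y * x = l ∨ y * x = k * l) := Iff.rfl
    rw [hR, hy, hy, hy, hy, mul_one]
    constructor
    · exact fun h => h.2
    · intro h
      refine ⟨?_, h⟩
      rcases h with rfl | rfl | rfl | rfl
      · exact hx
      · exact h1 _ hx
      · exact h3 _ hx
      · rw [← mul_assoc]
        exact h3 _ (h1 _ hx)
  have e' : ∏ a ∈ s.filter (fun y => R y x), a = ∏ a ∈ ({x, x * k, x * l, x * (k * l)} : Finset G), a := by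
    rw [e]
  refine e'.trans ?_
  have n1 : ∀ z : G, z ≠ 1 → x ≠ x * z := fun z hz h => hz (by
    have := h.symm
    rwa [mul_eq_left] at this)
  have n2 : x * k ≠ x * l := fun h => hkl (mul_left_cancel h)
  have n3 : x * k ≠ x * (k * l) := fun h => hl (by
    have h4 := mul_left_cancel h
    have h5 := h4.symm
    rwa [mul_eq_left] at h5)
  have n4 : x * l ≠ x * (k * l) := fun h => hk (by
    have h4 := mul_left_cancel h
    have h5 := h4.symm
    rwa [mul_eq_right] at h5)
  rw [Finset.prod_insert, Finset.prod_insert, Finset.prod_insert, Finset.prod_singleton]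
  · rw [show x * (x * k * (x * l * (x * (k * l)))) = (x * x) * (x * x) * (k * k) * (l * l) by
      ac_rfl]
    simp only [h2, mul_one]
  · rw [Finset.mem_singleton]; exact n4
  · rw [Finset.mem_insert, Finset.mem_singleton]
    rintro (h | h)
    · exact n2 h
    · exact n3 h
  · rw [Finset.mem_insert, Finset.mem_insert, Finset.mem_singleton]
    rintro (h | h | h)
    · exact n1 _ hk h
    · exact n1 _ hl h
    · exact n1 _ hkl1 h

end

variable {S : QStruct}

/-- two different elements of `V_t`, both different from 1 -/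
theorem exists_two [Finite S.G] {t : S.G} (h : 4 ≤ va S t) :
    ∃ k l : S.G, S.q t k = S.zero ∧ S.q t l = S.zero ∧ k ≠ 1 ∧ l ≠ 1 ∧ k ≠ l := by
  classical
  have := Fintype.ofFinite S.G
  let s : Finset S.G := Finset.univ.filter fun v => S.q t v = S.zero
  have hs : s.card = va S t := by
    unfold va
    rw [Nat.card_eq_fintype_card, Fintype.card_subtype]
  have h1 : 1 < (s.erase 1).card := by
    have := Finset.pred_card_le_card_erase (s := s) (a := 1)
    omega
  obtain ⟨k, l, hk, hl, hne⟩ := Finset.one_lt_card_iff.1 h1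
  rw [Finset.mem_erase, Finset.mem_filter] at hk hl
  exact ⟨k, l, hk.2.2, hl.2.2, hk.1, hl.1, hne⟩

theorem f2sum [Finite S.G] {w : S.G} {a : S.Q} (ha : a ≠ S.zero) (hw : InQ S w a)
    (h4 : ∀ t : S.G, t ≠ 1 → 4 ≤ va S t) [Fintype {v : S.G // InQ S v a}] :
    ∏ v : {v : S.G // InQ S v a}, v.1 ^ cv S w v.1 = 1 := by
  classical
  have := Fintype.ofFinite S.G
  have e1 : ∏ v : {v : S.G // InQ S v a}, v.1 ^ cv S w v.1 =
      ∏ v : S.G, ∏ t : S.G, (if S.q w t = a ∧ S.q v t = a then v else 1) := by
    rw [← Finset.prod_subtype (Finset.univ.filter fun v => InQ S v a) (fun v => by simp)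
      (fun v => v ^ cv S w v), Finset.prod_filter]
    refine Finset.prod_congr rfl fun v _ => ?_
    by_cases hv : InQ S v a
    · rw [if_pos hv, ← Finset.prod_filter, Finset.prod_const, ← card_common hw hv,
        Nat.card_eq_fintype_card, Fintype.card_subtype]
    · rw [if_neg hv]
      symm
      refine Finset.prod_eq_one fun t _ => ?_
      rw [if_neg]
      rintro ⟨_, h⟩
      exact hv ⟨t, h⟩
  rw [e1, Finset.prod_comm]
  refine Finset.prod_eq_one fun t _ => ?_
  by_cases ht : S.q w t = a
  · have ht1 : t ≠ 1 := by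
      rintro rfl
      exact ha (by rw [← ht, S.q_one])
    obtain ⟨k, l, hk, hl, hk1, hl1, hkl⟩ := exists_two (h4 t ht1)
    have e2 : ∏ v : S.G, (if S.q w t = a ∧ S.q v t = a then v else 1) =
        ∏ v ∈ Finset.univ.filter (fun v => S.q v t = a), v := by
      rw [Finset.prod_filter]
      refine Finset.prod_congr rfl fun v _ => ?_
      by_cases hv : S.q v t = a
      · rw [if_pos ⟨ht, hv⟩, if_pos hv]
      · rw [if_neg (fun h => hv h.2), if_neg hv]
    rw [e2]
    have hmul : ∀ k : S.G, S.q t k = S.zero →
        ∀ v ∈ Finset.univ.filter (fun v => S.q v t = a), v * k ∈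
          Finset.univ.filter (fun v => S.q v t = a) := by
      intro k hk v hv
      rw [Finset.mem_filter] at hv ⊢
      refine ⟨Finset.mem_univ _, ?_⟩
      rw [qmul_left (by rw [S.qs2]; exact hk)]
      exact hv.2
    exact prod4 S.exp_two _ hk1 hl1 hkl (hmul k hk) (hmul l hl)
  · refine Finset.prod_eq_one fun v _ => ?_
    rw [if_neg fun h => ht h.1]

end Pool.Agent.KAP66
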