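import Pool.Agent.KAP66.Basic

/-!
Law R of helper60 at the heaviest elements, violating pairs with `V_g ∩ V_s = 0` (hand proof:
helper35, note 3270; typed by helper66).
-/

set_option autoImplicit false
set_option linter.unusedSectionVars false

namespace Pool.Agent.KAP66

open QS
open Pool.Agent.MXR66 (va qr qm ql of_ql cancel)
open Pool.Agent.RF66 (LawR)

variable {S : QStruct}

/-- `g` has the largest `|V_g|` -/
def Heavy (S : QStruct) (g : S.G) : Prop := g ≠ 1 ∧ ∀ x, x ≠ 1 → va S x ≤ va S g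

/-- `c` is a third common value -/
def Third (S : QStruct) (g s : S.G) (b c : S.Q) : Prop :=
  InQ S g c ∧ InQ S s c ∧ c ≠ S.zero ∧ c ≠ b

/-- the pair `(g, s)` violates law R -/
def Viol (S : QStruct) (g s : S.G) : Prop :=
  Heavy S g ∧ S.q g s ≠ S.zero ∧
    ((∃ c, Third S g s (S.q g s) c) ∨ ∃ c, Third S g (g * s) (S.q g s) c)

theorem qself (hneg : S.neg = 1) (x : S.G) : S.q x x = S.zero := by
  have := S.qs1 x
  rwa [hneg, one_mul] at this

theorem q_mul_self (hneg : S.neg = 1) (g s : S.G) : S.q g (g * s) = S.q g s :=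
  qr (qself hneg g)

theorem ne_one_of_q {g s : S.G} (h : S.q g s ≠ S.zero) : s ≠ 1 := by
  rintro rfl
  exact h (S.q_one g)

theorem ne_one_of_q' {g s : S.G} (h : S.q g s ≠ S.zero) : g ≠ 1 := by
  rintro rfl
  exact h (by rw [S.qs2, S.q_one])

theorem Viol.mul (hneg : S.neg = 1) {g s : S.G} (h : Viol S g s) : Viol S g (g * s) := by
  obtain ⟨h1, h2, h3⟩ := h
  have e : g * (g * s) = s := by rw [← mul_assoc, S.exp_two, one_mul]
  refine ⟨h1, by rwa [q_mul_self hneg], ?_⟩
  rw [q_mul_self hneg, e]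
  exact h3.symm

/-- law R at `g` holds if no pair `(g, s)` is violating -/
theorem lawR_of_no_viol {g : S.G} (hg : Heavy S g) (h : ∀ s, ¬ Viol S g s) : LawR S g := by
  intro s t hs ht hst
  by_contra hne
  refine h s ⟨hg, hs, Or.inr ⟨S.q g t, ⟨t, rfl⟩, ⟨t, ?_⟩, ht, fun e => hne e.symm⟩⟩
  exact qmul_left hst

/-- (1a): `v ∉ V_g`, `w ∈ V_v`, `g w ∉ {0, g v}` -/
theorem viol_a {g v w : S.G} (hg : Heavy S g) (hv : S.q g v ≠ S.zero) (hvw : S.q v w = S.zero)
    (hw : S.q g w ≠ S.zero) (hne : S.q g w ≠ S.q g v) : Viol S g v :=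
  ⟨hg, hv, Or.inr ⟨S.q g w, ⟨w, rfl⟩, ⟨w, qmul_left hvw⟩, hw, hne⟩⟩

/-- (1b) -/
theorem viol_b {g t : S.G} {c : S.Q} (hg : Heavy S g) (ht : S.q g t ≠ S.zero) (h1 : InQ S g c)
    (h2 : InQ S t c) (h3 : c ≠ S.zero) (h4 : c ≠ S.q g t) : Viol S g t :=
  ⟨hg, ht, Or.inl ⟨c, h1, h2, h3, h4⟩⟩

/-- all violating pairs have `V_g ∩ V_s = 0` -/
def K1 (S : QStruct) : Prop :=
  ∀ g s, Viol S g s → ∀ x, S.q g x = S.zero → S.q s x = S.zero → x = 1

section

variable [Finite S.G] (hneg : S.neg = 1) (hk : K1 S)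

include hneg hk

/-- the weight of `t' ∈ N_s(a)` outside `V_g` is `1` -/
theorem weight {g s : S.G} {a : S.Q} (hv : Viol S g s) (ha : a ≠ S.zero) (hab : a ≠ S.q g s)
    (hga : InQ S g a) {t : S.G} (ht : S.q s t = a) (hgt : S.q g t ≠ S.zero) :
    cv S g t = 1 := by
  refine cv_one (hk g t ?_)
  by_cases h : S.q g t = a
  · refine viol_a (w := g * s) hv.1 hgt ?_ ?_ ?_
    · rw [S.qs2]
      exact ql (h.trans ht.symm)
    · rw [q_mul_self hneg]; exact hv.2.1
    · rw [q_mul_self hneg, h]; exact fun e => hab e.symm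
  · exact viol_b hv.1 hgt hga ⟨s, by rw [S.qs2]; exact ht⟩ ha fun e => h e.symm

/-- (2), case `a ∉ Q_(gs)` -/
theorem two_a {g s : S.G} {a : S.Q} (hv : Viol S g s) (ht : Third S g s (S.q g s) a)
    (hn : ¬ InQ S (g * s) a) : va S g ≤ va S s := by
  classical
  have := Fintype.ofFinite S.G
  obtain ⟨h1, h2, h3, h4⟩ := ht
  have hc := count h1 h2
  have l : va S g ≤ ∑ t : {t : S.G // S.q g t = a}, cv S t.1 s := by
    rw [← card_coset h1, Nat.card_eq_fintype_card, ← Finset.card_univ, Finset.card_eq_sum_ones]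
    exact Finset.sum_le_sum fun t _ => cv_pos _ _
  have r : ∑ t : {t : S.G // S.q s t = a}, cv S g t.1 = va S s := by
    rw [← card_coset h2, Nat.card_eq_fintype_card, ← Finset.card_univ, Finset.card_eq_sum_ones]
    refine Finset.sum_congr rfl fun t _ => weight hneg hk hv h3 h4 h1 t.2 fun e => hn ⟨t.1, ?_⟩
    rw [qmul_left' e]
    exact t.2
  rw [hc, r] at l
  exact l

/-- (2), case `a ∈ Q_(gs)` -/
theorem two_b {g s : S.G} {a : S.Q} (hv : Viol S g s) (ht : Third S g s (S.q g s) a)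
    (hn : InQ S (g * s) a) :
    ∃ z, S.q s z = a ∧ S.q g z = S.zero ∧ va S g + 2 ≤ va S s + cv S g z := by
  classical
  have := Fintype.ofFinite S.G
  obtain ⟨h1, h2, h3, h4⟩ := ht
  have hc := count h1 h2
  obtain ⟨t0, ht0, ht0'⟩ := slot0 h1 hn
  obtain ⟨z, hz, hz'⟩ := slot0 h2 (by rwa [mul_comm] : InQ S (s * g) a)
  refine ⟨z, hz, hz', ?_⟩
  have hs1 : s ≠ 1 := ne_one_of_q hv.2.1
  have l : va S g + 1 ≤ ∑ t : {t : S.G // S.q g t = a}, cv S t.1 s := by
    have e : va S g + 1 = ∑ t : {t : S.G // S.q g t = a},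
        (1 + if t = ⟨t0, ht0⟩ then 1 else 0) := by
      rw [Finset.sum_add_distrib, Finset.sum_ite_eq', if_pos (Finset.mem_univ _),
        ← Finset.card_eq_sum_ones, Finset.card_univ, ← Nat.card_eq_fintype_card, card_coset h1]
    rw [e]
    refine Finset.sum_le_sum fun t _ => ?_
    split_ifs with h
    · rw [h]
      exact cv_two (v := s) (by rw [S.qs2]; exact ht0') (qself hneg s) hs1
    · exact cv_pos _ _
  have r : ∑ t : {t : S.G // S.q s t = a}, cv S g t.1 + 1 = va S s + cv S g z := by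
    have e : ∑ t : {t : S.G // S.q s t = a}, cv S g t.1 =
        ∑ t ∈ (Finset.univ : Finset {t : S.G // S.q s t = a}).erase ⟨z, hz⟩, cv S g t.1 +
          cv S g z :=
      (Finset.sum_erase_add _ _ (Finset.mem_univ (⟨z, hz⟩ : {t : S.G // S.q s t = a}))).symm
    have e2 : ∑ t ∈ (Finset.univ : Finset {t : S.G // S.q s t = a}).erase ⟨z, hz⟩, cv S g t.1 =
        ∑ t ∈ (Finset.univ : Finset {t : S.G // S.q s t = a}).erase ⟨z, hz⟩, 1 := by
      refine Finset.sum_congr rfl fun t ht => ?_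
      refine weight hneg hk hv h3 h4 h1 t.2 fun e => (Finset.mem_erase.1 ht).1 ?_
      apply Subtype.ext
      have h5 : t.1 * z = 1 := hk g s hv _ (by rw [qr e]; exact hz') (qm (t.2.trans hz.symm))
      calc t.1 = t.1 * (z * z) := by rw [S.exp_two, mul_one]
        _ = (t.1 * z) * z := (mul_assoc _ _ _).symm
        _ = z := by rw [h5, one_mul]
    rw [e, e2, ← Finset.card_eq_sum_ones, Finset.card_erase_of_mem (Finset.mem_univ _),
      Finset.card_univ, ← Nat.card_eq_fintype_card, card_coset h2]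
    have := va_pos s
    omega
  rw [hc] at l
  omega

end

/-- `V_x` as a subgroup -/
def Vg (S : QStruct) (x : S.G) : Subgroup S.G where
  carrier := {v | S.q x v = S.zero}
  one_mem' := S.q_one x
  mul_mem' := fun {a b} ha hb => by
    show S.q x (a * b) = S.zero
    rw [qr ha]; exact hb
  inv_mem' := fun {a} ha => by
    have : a⁻¹ = a := inv_eq_of_mul_eq_one_left (S.exp_two a)
    rw [this]; exact ha

theorem mem_Vg {x v : S.G} : v ∈ Vg S x ↔ S.q x v = S.zero := Iff.rfl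

theorem card_Vg (x : S.G) : Nat.card (Vg S x) = va S x := rfl

theorem card_Vg2 (x y : S.G) : Nat.card (Vg S x ⊓ Vg S y : Subgroup S.G) = cv S x y := rfl

theorem card_sub_pow [Finite S.G] (K : Subgroup S.G) : ∃ n, Nat.card K = 2 ^ n := by
  have h : IsPGroup 2 S.G := fun g => ⟨1, by rw [pow_one, pow_two, S.exp_two]⟩
  have : Fact (Nat.Prime 2) := ⟨Nat.prime_two⟩
  exact IsPGroup.iff_card.1 (h.to_subgroup K)

theorem va_pow [Finite S.G] (x : S.G) : ∃ n, va S x = 2 ^ n := card_sub_pow (Vg S x)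

theorem cv_pow [Finite S.G] (x y : S.G) : ∃ n, cv S x y = 2 ^ n :=
  card_sub_pow (Vg S x ⊓ Vg S y)

theorem cv_le [Finite S.G] (x y : S.G) : cv S x y ≤ va S x := by
  unfold cv va
  exact Nat.card_le_card_of_injective
    (fun v => (⟨v.1, v.2.1⟩ : {v : S.G // S.q x v = S.zero}))
    (fun v v' e => Subtype.ext (congrArg (fun z => z.1) e))

/-- powers of two -/
theorem two_le_of_lt {m n : ℕ} (h : 2 ^ m < 2 ^ n) : 2 * 2 ^ m ≤ 2 ^ n := by
  have h1 : m < n := (Nat.pow_lt_pow_iff_right (by norm_num)).1 h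
  calc 2 * 2 ^ m = 2 ^ (m + 1) := by rw [pow_succ, mul_comm]
    _ ≤ 2 ^ n := Nat.pow_le_pow_right (by norm_num) h1

/-- if `|V_x ∩ V_y| = |V_x|` then `V_x ⊆ V_y` -/
theorem sub_of_cv [Finite S.G] {x y : S.G} (h : va S x ≤ cv S x y) {v : S.G}
    (hv : S.q x v = S.zero) : S.q y v = S.zero := by
  classical
  have := Fintype.ofFinite S.G
  let f : {v : S.G // S.q x v = S.zero ∧ S.q y v = S.zero} → {v : S.G // S.q x v = S.zero} :=
    fun v => ⟨v.1, v.2.1⟩
  have hf : Function.Injective f := fun v v' e => Subtype.ext (congrArg (fun z => z.1) e)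
  have hs : Function.Surjective f := by
    refine ((Fintype.bijective_iff_injective_and_card f).2 ⟨hf, ?_⟩).2
    apply le_antisymm (Fintype.card_le_of_injective f hf)
    rw [← Nat.card_eq_fintype_card, ← Nat.card_eq_fintype_card]
    exact h
  obtain ⟨w, hw⟩ := hs ⟨v, hv⟩
  have e : w.1 = v := congrArg Subtype.val hw
  exact e ▸ w.2.2

theorem va_le_of_sub [Finite S.G] {x y : S.G} (h : ∀ v, S.q x v = S.zero → S.q y v = S.zero) :
    va S x ≤ va S y := by
  unfold va
  exact Nat.card_le_card_of_injective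
    (fun v => (⟨v.1, h v.1 v.2⟩ : {v : S.G // S.q y v = S.zero}))
    (fun v v' e => Subtype.ext (congrArg (fun z => z.1) e))

end Pool.Agent.KAP66
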