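import Pool.Agent.KAP31.Door
import Pool.Agent.KAP66.Viol

/-!
The door of Law HG (helper74): if `s` is a heaviest slot of a symbol `a` with inclusion-maximal set
of slots and `D_a = V_s V_n` for every `n` with `q (s, n) = a`, then `a` is rigid at `s`. Uses the
theorem UC of helper95 (unique continuation), here a hypothesis.
-/

set_option autoImplicit false
set_option linter.unusedSectionVars false

namespace Pool.Agent.KAP66

open QS
open Pool.Agent.MXR66 (va qr qm ql of_ql cancel)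
open Pool.Agent.KAP31 (SMax InD MinEx)

/-- unique continuation (helper95) -/
def UC (S : QStruct) : Prop := ∀ (g : S.G) (a d : S.Q), d ≠ S.zero → InQ S g a → InQ S g d →
  (∀ n, S.q g n = d → InQ S n a) → ∀ x, InQ S x d → InQ S x a

/-- `D_a = V_s V_n` for all `n` with `q (s, n) = a` -/
def HGat (S : QStruct) (a : S.Q) (s : S.G) : Prop := ∀ n, S.q s n = a → ∀ v, InD S a v →
  ∃ u w, S.q s u = S.zero ∧ S.q n w = S.zero ∧ v = u * w

theorem star_of_HG {S : QStruct} (hneg : S.neg = 1) {a : S.Q} {s : S.G} (HG : HGat S a s)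
    {v : S.G} (hv : InD S a v) {n : S.G} (hn : S.q s n = a) : InQ S n (S.q s v) := by
  have e : S.q s (s * n) = a := by rw [qr (qself hneg s)]; exact hn
  obtain ⟨u, w, h1, h2, h3⟩ := HG (s * n) e v hv
  refine ⟨w, ?_⟩
  rw [h3, qr h1]
  -- q (s * n) w = 0, so q s w = q n w
  rw [S.qs2 n w, S.qs2 s w]
  rw [S.qs2] at h2
  exact ((S.qs3 _ _ _).2 (by rwa [mul_comm n s])).symm ▸ rfl

theorem rigid_of_HG {S : QStruct} [Finite S.G] (hneg : S.neg = 1) (hUC : UC S) {a : S.Q}
    {s : S.G} (ha : a ≠ S.zero) (hmax : SMax S a) (hs : InQ S s a) (HG : HGat S a s) :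
    ∀ v, InD S a v → S.q s v = S.zero ∨ S.q s v = a := by
  intro v hv
  have h1 : ∀ x, InQ S x a → InQ S x (S.q s v) :=
    hUC s (S.q s v) a ha ⟨v, rfl⟩ hs fun n hn => star_of_HG hneg HG hv hn
  exact KAP31.atomic ⟨s, hs⟩ hmax h1

theorem etc_of_HG (hUC : ∀ S : QStruct, Finite S.G → S.neg = 1 → UC S)
    (h : ∀ S : QStruct, MinEx S → ∃ (a : S.Q) (s : S.G), a ≠ S.zero ∧ SMax S a ∧ InQ S s a ∧
      HGat S a s) :
    ∀ S : QStruct, Finite S.G → S.neg = 1 → ElemType S :=
  KAP31.etc_of_rigid_symbol fun S M => by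
    have := M.fin
    obtain ⟨a, s, ha, hmax, hs, hK⟩ := h S M
    exact ⟨a, s, ha, hs, rigid_of_HG M.neg (hUC S M.fin M.neg) ha hmax hs hK⟩

end Pool.Agent.KAP66
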