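import Pool.Agent.KAP66.Basic

/-!
Structures of elementary type in which all centralizers of elements different from 1 have the same
size `F ≥ 4`: totally degenerate, or of local type (step (8) of helper35, note 3270).
-/

set_option autoImplicit false
set_option linter.unusedSectionVars false

namespace Pool.Agent.KAP66

open QS
open Pool.Agent.MXR66 (va)

theorem va_prod (A B : QStruct) (a : A.G) (b : B.G) :
    va (QS.prod A B) ((a, b) : A.G × B.G) = va A a * va B b := by
  unfold va
  rw [← Nat.card_prod]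
  exact Nat.card_congr
    { toFun := fun v => (⟨v.1.1, congrArg Prod.fst v.2⟩, ⟨v.1.2, congrArg Prod.snd v.2⟩)
      invFun := fun v => ⟨(v.1.1, v.2.1), Prod.ext v.1.2 v.2.2⟩
      left_inv := fun _ => rfl
      right_inv := fun _ => rfl }

theorem va_one (A : QStruct) : va A 1 = Nat.card A.G := by
  unfold va
  exact Nat.card_congr
    { toFun := fun v => v.1
      invFun := fun v => ⟨v, by rw [A.qs2, A.q_one]⟩
      left_inv := fun _ => rfl
      right_inv := fun _ => rfl }

theorem zero_of_va {A : QStruct} [Finite A.G] {a : A.G} (h : va A a = Nat.card A.G) (b : A.G) :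
    A.q a b = A.zero := by
  classical
  have := Fintype.ofFinite A.G
  by_contra hne
  have hlt : va A a < Nat.card A.G := by
    unfold va
    rw [Nat.card_eq_fintype_card, Nat.card_eq_fintype_card]
    exact Fintype.card_subtype_lt (x := b) hne
  omega

/-- the conclusion of `unif` -/
def Uni (T : QStruct) : Prop :=
  (∀ x y, T.q x y = T.zero) ∨ (∃ e, e ≠ T.zero ∧ (∀ x y, T.q x y = T.zero ∨ T.q x y = e) ∧
    ∀ x, x ≠ 1 → ∃ y, T.q x y = e)

theorem uni_of_subsingleton {T : QStruct} (h : ∀ x : T.G, x = 1) : Uni T :=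
  Or.inl fun x y => by rw [h y, T.q_one]

theorem uni_prod_left {A B : QStruct} (hA : ∀ x : A.G, x = 1) (hB : Uni B) :
    Uni (QS.prod A B) := by
  rcases hB with h | ⟨e, he, h1, h2⟩
  · left
    rintro ⟨a, b⟩ ⟨c, d⟩
    refine Prod.ext ?_ (h b d)
    show A.q a c = A.zero
    rw [hA c, A.q_one]
  · right
    refine ⟨(A.zero, e), fun h => he (congrArg Prod.snd h), ?_, ?_⟩
    · rintro ⟨a, b⟩ ⟨c, d⟩
      have h0 : A.q a c = A.zero := by rw [hA c, A.q_one]
      rcases h1 b d with h | h
      · exact Or.inl (Prod.ext h0 h)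
      · exact Or.inr (Prod.ext h0 h)
    · rintro ⟨a, b⟩ hab
      have hb : b ≠ 1 := fun hb => hab (Prod.ext (hA a) hb)
      obtain ⟨y, hy⟩ := h2 b hb
      exact ⟨((1, y) : A.G × B.G), Prod.ext (A.q_one a) hy⟩

theorem uni_prod_right {A B : QStruct} (hB : ∀ x : B.G, x = 1) (hA : Uni A) :
    Uni (QS.prod A B) := by
  rcases hA with h | ⟨e, he, h1, h2⟩
  · left
    rintro ⟨a, b⟩ ⟨c, d⟩
    refine Prod.ext (h a c) ?_
    show B.q b d = B.zero
    rw [hB d, B.q_one]
  · right
    refine ⟨(e, B.zero), fun h => he (congrArg Prod.fst h), ?_, ?_⟩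
    · rintro ⟨a, b⟩ ⟨c, d⟩
      have h0 : B.q b d = B.zero := by rw [hB d, B.q_one]
      rcases h1 a c with h | h
      · exact Or.inl (Prod.ext h h0)
      · exact Or.inr (Prod.ext h h0)
    · rintro ⟨a, b⟩ hab
      have ha : a ≠ 1 := fun ha => hab (Prod.ext ha (hB b))
      obtain ⟨y, hy⟩ := h2 a ha
      exact ⟨((y, 1) : A.G × B.G), Prod.ext hy (B.q_one b)⟩

theorem va_ext_t (W : QStruct) (hn : W.neg = 1) :
    va (QS.ext W) ((1, Multiplicative.ofAdd 1) : W.G × Multiplicative (ZMod 2)) ≤ 2 := by
  classical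
  unfold va
  have hsub : ∀ v : {v : (QS.ext W).G // (QS.ext W).q
      ((1, Multiplicative.ofAdd 1) : W.G × Multiplicative (ZMod 2)) v = (QS.ext W).zero},
      (v.1 : W.G × Multiplicative (ZMod 2)).1 = 1 := by
    rintro ⟨⟨b, β⟩, hb⟩
    have h1 : extMap W (1, Multiplicative.ofAdd 1) (b, β) = (W.zero, 1) :=
      congrArg Subtype.val hb
    rcases two_cases β with rfl | rfl
    · rw [extMap_x_one] at h1
      exact congrArg Prod.snd h1
    · rw [extMap_x_x, hn] at h1
      have h2 := congrArg Prod.snd h1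
      simpa using h2
  have h2 := Nat.card_le_card_of_injective
    (fun v : {v : (QS.ext W).G // (QS.ext W).q
      ((1, Multiplicative.ofAdd 1) : W.G × Multiplicative (ZMod 2)) v = (QS.ext W).zero} =>
        ((v.1 : W.G × Multiplicative (ZMod 2)).2))
    (fun v w e => Subtype.ext (Prod.ext ((hsub v).trans (hsub w).symm) e))
  refine h2.trans (le_of_eq ?_)
  rw [Nat.card_eq_fintype_card]
  rfl

theorem va_iso {S T : QStruct} (φ : S.G ≃* T.G)
    (hz : ∀ a b, S.q a b = S.zero ↔ T.q (φ a) (φ b) = T.zero) (a : S.G) :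
    va S a = va T (φ a) := by
  unfold va
  exact Nat.card_congr (Equiv.subtypeEquiv φ.toEquiv fun b => hz a b)

theorem unif {T : QStruct} (hE : ElemType T) : T.neg = 1 → Finite T.G → ∀ F, 4 ≤ F →
    (∀ x : T.G, x ≠ 1 → va T x = F) → (∀ x y, T.q x y = T.zero) ∨
      (∃ e, e ≠ T.zero ∧ (∀ x y, T.q x y = T.zero ∨ T.q x y = e) ∧
        ∀ x, x ≠ 1 → ∃ y, T.q x y = e) := by
  show T.neg = 1 → Finite T.G → ∀ F, 4 ≤ F → (∀ x : T.G, x ≠ 1 → va T x = F) → Uni T
  induction hE with
  | L0 S h =>
    intro _ _ F _ _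
    have hs := Nat.card_eq_one_iff_unique.1 h
    haveI := hs.1
    exact uni_of_subsingleton fun x => Subsingleton.elim _ _
  | L10 S h h1 h2 => exact fun _ _ _ _ _ => Or.inl h2
  | L11 S h h1 h2 => exact fun hneg => absurd hneg h1
  | L1 S h h1 h2 => exact fun hneg => absurd hneg h1
  | loc S hf h h1 h2 =>
    intro _ _ F _ _
    right
    obtain ⟨u, v, huv, hset⟩ := Nat.card_eq_two_iff.1 h2
    have hall : ∀ β : S.Q, β = u ∨ β = v := fun β => by
      have hb : β ∈ ({u, v} : Set S.Q) := hset ▸ Set.mem_univ β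
      exact hb
    have key : ∃ e, e ≠ S.zero ∧ ∀ β : S.Q, β = S.zero ∨ β = e := by
      rcases hall S.zero with h0 | h0
      · exact ⟨v, fun e => huv (h0.symm.trans e.symm), fun β => by
          rcases hall β with h | h
          · exact Or.inl (h.trans h0.symm)
          · exact Or.inr h⟩
      · exact ⟨u, fun e => huv (e.trans h0), fun β => by
          rcases hall β with h | h
          · exact Or.inr h
          · exact Or.inl (h.trans h0.symm)⟩
    obtain ⟨e, he, hβ⟩ := key
    refine ⟨e, he, fun x y => hβ _, fun x hx => ?_⟩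
    by_contra hno
    push Not at hno
    exact hx (h1 x fun b => (hβ _).resolve_right (hno b))
  | prod A B h1 h2 ih1 ih2 =>
    intro hneg hf F hF hva
    have hnA : A.neg = 1 := congrArg Prod.fst hneg
    have hnB : B.neg = 1 := congrArg Prod.snd hneg
    haveI : Finite (A.G × B.G) := hf
    haveI : Finite A.G := Finite.of_injective (fun a : A.G => ((a, 1) : A.G × B.G))
      fun a a' e => congrArg Prod.fst e
    haveI : Finite B.G := Finite.of_injective (fun b : B.G => ((1, b) : A.G × B.G))
      fun b b' e => congrArg Prod.snd e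
    by_cases hA : ∀ x : A.G, x = 1
    · refine uni_prod_left hA (ih2 hnB inferInstance F hF fun b hb => ?_)
      have h3 := hva ((1, b) : A.G × B.G) (fun e => hb (congrArg Prod.snd e))
      rw [va_prod, va_one] at h3
      have : Unique A.G := { default := 1, uniq := hA }
      rwa [Nat.card_unique, one_mul] at h3
    by_cases hB : ∀ x : B.G, x = 1
    · refine uni_prod_right hB (ih1 hnA inferInstance F hF fun a ha => ?_)
      have h3 := hva ((a, 1) : A.G × B.G) (fun e => ha (congrArg Prod.fst e))
      rw [va_prod, va_one] at h3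
      have : Unique B.G := { default := 1, uniq := hB }
      rwa [Nat.card_unique, mul_one] at h3
    push Not at hA hB
    obtain ⟨a0, ha0⟩ := hA
    obtain ⟨b0, hb0⟩ := hB
    have hpA : ∀ a : A.G, 0 < va A a := fun a => va_pos a
    have hpB : ∀ b : B.G, 0 < va B b := fun b => va_pos b
    have e1 : ∀ a : A.G, a ≠ 1 → va A a * Nat.card B.G = F := fun a ha => by
      have := hva ((a, 1) : A.G × B.G) (fun e => ha (congrArg Prod.fst e))
      rwa [va_prod, va_one] at this
    have e2 : ∀ b : B.G, b ≠ 1 → Nat.card A.G * va B b = F := fun b hb => by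
      have := hva ((1, b) : A.G × B.G) (fun e => hb (congrArg Prod.snd e))
      rwa [va_prod, va_one] at this
    have e3 : ∀ (a : A.G) (b : B.G), a ≠ 1 → va A a * va B b = F := fun a b ha => by
      have := hva ((a, b) : A.G × B.G) (fun e => ha (congrArg Prod.fst e))
      rwa [va_prod] at this
    have zB : ∀ b : B.G, va B b = Nat.card B.G := fun b =>
      Nat.eq_of_mul_eq_mul_left (hpA a0) ((e3 a0 b ha0).trans (e1 a0 ha0).symm)
    have zA : ∀ a : A.G, va A a = Nat.card A.G := fun a => by
      by_cases ha : a = 1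
      · rw [ha, va_one]
      · exact Nat.eq_of_mul_eq_mul_right (hpB b0) ((e3 a b0 ha).trans (e2 b0 hb0).symm)
    left
    rintro ⟨a, b⟩ ⟨c, d⟩
    exact Prod.ext (zero_of_va (zA a) c) (zero_of_va (zB b) d)
  | ext W h ih =>
    intro hneg hf F hF hva
    have hn : W.neg = 1 := congrArg Prod.fst hneg
    have h1 := va_ext_t W hn
    have h2 := hva ((1, Multiplicative.ofAdd 1) : W.G × Multiplicative (ZMod 2)) (fun e => by
      have h3 : Multiplicative.ofAdd (1 : ZMod 2) = 1 := congrArg Prod.snd e
      exact absurd h3 (by decide))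
    omega
  | iso S T hi h ih =>
    intro hneg hf F hF hva
    obtain ⟨φ, hφ, hq⟩ := hi
    have hnS : S.neg = 1 := by
      apply φ.injective
      rw [hφ, hneg, map_one]
    haveI : Finite S.G := Finite.of_equiv _ φ.symm.toEquiv
    have hz : ∀ a b, S.q a b = S.zero ↔ T.q (φ a) (φ b) = T.zero := by
      intro a b
      have h1 := hq a b a 1
      rw [S.q_one, map_one, T.q_one] at h1
      exact h1
    have h2 := ih hnS inferInstance F hF fun x hx => by
      rw [va_iso φ hz]
      exact hva _ fun e => hx (φ.injective (e.trans (map_one φ).symm))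
    have hs : ∀ x y : T.G, T.q x y = T.q (φ (φ.symm x)) (φ (φ.symm y)) := fun x y => by
      rw [φ.apply_symm_apply, φ.apply_symm_apply]
    rcases h2 with h2 | ⟨e, he, h3, h4⟩
    · left
      intro x y
      rw [hs]
      exact (hz _ _).1 (h2 _ _)
    · right
      obtain ⟨a, b, hab⟩ := S.surj e
      refine ⟨T.q (φ a) (φ b), fun h0 => he (hab.symm.trans ((hz _ _).2 h0)), fun x y => ?_,
        fun x hx => ?_⟩
      · rw [hs]
        rcases h3 (φ.symm x) (φ.symm y) with h5 | h5
        · exact Or.inl ((hz _ _).1 h5)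
        · exact Or.inr ((hq _ _ _ _).1 (h5.trans hab.symm))
      · obtain ⟨y, hy⟩ := h4 (φ.symm x) fun e => hx (by
          rw [← φ.apply_symm_apply x, e, map_one])
        refine ⟨φ y, ?_⟩
        rw [← φ.apply_symm_apply x]
        exact (hq _ _ _ _).1 (hy.trans hab.symm)

end Pool.Agent.KAP66
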