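import Pool.Agent.KAP66.Comp
import Pool.Agent.KAP66.Unif
import Pool.Agent.KAP66.F2

/-!
Law R of helper60 at the heaviest elements, violating pairs with `V_g ∩ V_s = 0`, steps (7), (8)
(hand proof: helper35, note 3270; typed by helper66).
-/

set_option autoImplicit false
set_option linter.unusedSectionVars false

namespace Pool.Agent.KAP66

open QS
open Pool.Agent.MXR66 (va qr qm ql of_ql cancel)
open Pool.Agent.RF66 (LawR)

variable {S : QStruct}

theorem sq_one (v : S.G) : v ^ 2 = 1 := by rw [pow_two, S.exp_two]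

theorem pow_even {v : S.G} {n : ℕ} (h : Even n) : v ^ n = 1 := by
  obtain ⟨k, rfl⟩ := h
  rw [← two_mul, pow_mul, sq_one, one_pow]

/-- a bound from a small image -/
theorem half [Finite S.G] {x y : S.G} {e : S.Q}
    (h : ∀ v, S.q x v = S.zero → S.q y v = S.zero ∨ S.q y v = e) : va S x ≤ 2 * cv S x y := by
  classical
  by_cases hx : ∃ x0, S.q x x0 = S.zero ∧ S.q y x0 = e
  · obtain ⟨x0, h1, h2⟩ := hx
    have e1 : 2 * cv S x y = Nat.card (Bool × {v : S.G // S.q x v = S.zero ∧ S.q y v = S.zero}) := by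
      rw [Nat.card_prod, Nat.card_eq_fintype_card, Fintype.card_bool]
      rfl
    rw [e1]
    let f : {v : S.G // S.q x v = S.zero} →
        Bool × {v : S.G // S.q x v = S.zero ∧ S.q y v = S.zero} := fun v =>
      if hv : S.q y v.1 = S.zero then (false, ⟨v.1, v.2, hv⟩)
      else (true, ⟨v.1 * x0, by rw [qr v.2]; exact h1,
        qm (((h v.1 v.2).resolve_left hv).trans h2.symm)⟩)
    have hf : Function.Injective f := by
      intro v v' hvv
      by_cases hv : S.q y v.1 = S.zero <;> by_cases hv' : S.q y v'.1 = S.zero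
      · have e2 : f v = (false, ⟨v.1, v.2, hv⟩) := dif_pos hv
        have e3 : f v' = (false, ⟨v'.1, v'.2, hv'⟩) := dif_pos hv'
        rw [e2, e3] at hvv
        exact Subtype.ext (congrArg (fun z => z.2.1) hvv)
      · have e2 : f v = (false, ⟨v.1, v.2, hv⟩) := dif_pos hv
        have e3 : (f v').1 = true := by
          show (dite _ _ _ : Bool × _).1 = true
          rw [dif_neg hv']
        rw [← hvv, e2] at e3
        exact absurd e3 (by simp)
      · have e2 : f v' = (false, ⟨v'.1, v'.2, hv'⟩) := dif_pos hv'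
        have e3 : (f v).1 = true := by
          show (dite _ _ _ : Bool × _).1 = true
          rw [dif_neg hv]
        rw [hvv, e2] at e3
        exact absurd e3 (by simp)
      · have e2 : f v = (true, ⟨v.1 * x0, by rw [qr v.2]; exact h1,
          qm (((h v.1 v.2).resolve_left hv).trans h2.symm)⟩) := dif_neg hv
        have e3 : f v' = (true, ⟨v'.1 * x0, by rw [qr v'.2]; exact h1,
          qm (((h v'.1 v'.2).resolve_left hv').trans h2.symm)⟩) := dif_neg hv'
        rw [e2, e3] at hvv
        exact Subtype.ext (mul_right_cancel (congrArg (fun z => z.2.1) hvv))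
    exact Nat.card_le_card_of_injective f hf
  · push Not at hx
    have : va S x ≤ cv S x y := by
      unfold va cv
      refine Nat.card_le_card_of_injective
        (fun v : {v : S.G // S.q x v = S.zero} =>
          (⟨v.1, v.2, (h v.1 v.2).resolve_right (hx v.1 v.2)⟩ :
            {v : S.G // S.q x v = S.zero ∧ S.q y v = S.zero}))
        (fun v v' e => Subtype.ext (congrArg (fun z => z.1) e))
    omega

section

variable [Finite S.G] (hneg : S.neg = 1) (hk : K1 S) (h4 : ∀ x : S.G, x ≠ 1 → 4 ≤ va S x)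
  (hall : ∀ w : S.G, w ≠ 1 → ∃ u, Viol S w u)

include hneg hk h4 hall

/-- `|V_s ∩ V_u| = 1` for elements which are not connected -/
theorem cv_of_not_conn {s u : S.G} (hu : u ≠ 1) (hc : ¬ Conn S s u) : cv S s u = 1 :=
  cv_one fun x hx hx' => by
    by_contra hx1
    exact hc (Conn.step (Relation.ReflTransGen.single ⟨hx1, hx⟩) hu (by rw [S.qs2]; exact hx'))

theorem even_of_conn {s u : S.G} (hs : s ≠ 1) (hc : Conn S s u) : Even (cv S s u) := by
  have hu : u ≠ 1 := hc.ne hs
  by_cases hq : S.q s u = S.zero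
  · exact even_cv (cv_two (v := u) hq (qself hneg u) hu)
  · have h1 := two_cv hneg hk h4 hall hs hc hq
    have h2 := h4 s hs
    exact even_cv (by omega)

/-- (7) -/
theorem seven {s u : S.G} (hs : s ≠ 1) (hu : u ≠ 1) (hc : ¬ Conn S s u) :
    ∃ w, w ≠ s ∧ Conn S s w ∧ InQ S w (S.q s u) := by
  classical
  have := Fintype.ofFinite S.G
  set a := S.q s u with ha
  have ha0 : a ≠ S.zero := fun h => hc (Relation.ReflTransGen.single ⟨hu, h⟩)
  have key : ∀ w : S.G, w ≠ 1 → InQ S w a →
      ∏ v : {v : S.G // InQ S v a}, v.1 =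
        ∏ v : {v : S.G // InQ S v a}, (if Conn S w v.1 then v.1 else 1) := by
    intro w hw hwa
    have h1 := f2sum ha0 hwa h4
    have h2 : ∀ v : {v : S.G // InQ S v a}, v.1 =
        (if Conn S w v.1 then v.1 else 1) * v.1 ^ cv S w v.1 := by
      intro v
      have hv1 : v.1 ≠ 1 := by
        intro e
        obtain ⟨z, hz⟩ := v.2
        apply ha0
        rw [← hz, e, S.qs2, S.q_one]
      split_ifs with h
      · rw [pow_even (even_of_conn hneg hk h4 hall hw h), mul_one]
      · rw [cv_of_not_conn hneg hk h4 hall hv1 h, pow_one, one_mul]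
    calc ∏ v : {v : S.G // InQ S v a}, v.1 =
        ∏ v : {v : S.G // InQ S v a},
          ((if Conn S w v.1 then v.1 else 1) * v.1 ^ cv S w v.1) :=
          Finset.prod_congr rfl fun v _ => h2 v
      _ = _ := by rw [Finset.prod_mul_distrib, h1, mul_one]
  have hmem : ∀ w : S.G, ∀ hw : w ≠ 1, InQ S w a →
      ∏ v : {v : S.G // InQ S v a}, v.1 ∈ Pg hneg hk h4 hall w hw := by
    intro w hw hwa
    rw [key w hw hwa]
    refine Subgroup.prod_mem _ fun v _ => ?_
    split_ifs with h
    · exact Or.inr h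
    · exact Or.inl rfl
  have h1 : ∏ v : {v : S.G // InQ S v a}, v.1 = 1 := by
    rcases hmem s hs (inQ_self _ _) with h | h
    · exact h
    · rcases hmem u hu (inQ_self' _ _) with h' | h'
      · exact h'
      · exact absurd (h.trans (h'.symm hu)) hc
  by_contra hno
  push Not at hno
  have h2 : ∏ v : {v : S.G // InQ S v a}, (if Conn S s v.1 then v.1 else 1) = s := by
    have e : ∀ v : {v : S.G // InQ S v a}, (if Conn S s v.1 then v.1 else (1 : S.G)) =
        if v = ⟨s, inQ_self _ _⟩ then s else 1 := by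
      intro v
      by_cases hvs : v = ⟨s, inQ_self _ _⟩
      · have hc' : Conn S s v.1 := by rw [hvs]; exact Relation.ReflTransGen.refl
        rw [if_pos hc', if_pos hvs, hvs]
      · rw [if_neg hvs, if_neg]
        intro h
        exact hno v.1 (fun e => hvs (Subtype.ext e)) h v.2
    rw [Finset.prod_congr rfl fun v _ => e v, Finset.prod_ite_eq', if_pos (Finset.mem_univ _)]
  exact hs (by rw [← h2, ← key s hs (inQ_self _ _), h1])

end

/-- **law R at the heaviest elements if all violating pairs have `V_g ∩ V_s = 0`** -/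
theorem no_viol_of_K1 [Finite S.G] (hneg : S.neg = 1) (hS : ¬ ElemType S)
    (hsm : ∀ T : QStruct, Finite T.G → T.neg = 1 → Nat.card T.G < Nat.card S.G → ElemType T)
    (hk : K1 S) : ∀ g s : S.G, ¬ Viol S g s := by
  classical
  have h4 : ∀ x : S.G, x ≠ 1 → 4 ≤ va S x := by
    intro x hx
    by_contra hlt
    push Not at hlt
    have h2 : 2 ≤ va S x := by
      rw [← cv_self]; exact cv_two (v := x) (qself hneg x) (qself hneg x) hx
    obtain ⟨n, hn⟩ := va_pow x
    have h3 : va S x = 2 := by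
      rcases n with _ | _ | n
      · omega
      · rw [hn]; rfl
      · have : 4 ≤ 2 ^ (n + 2) := by
          rw [pow_add]; have := Nat.one_le_two_pow (n := n); omega
        rw [show n + 1 + 1 = n + 2 from rfl] at hn
        omega
    refine hS (RF66.elem_of_decomp hneg hsm (Or.inl (ETCR.ext_of_rigid S hneg hx fun v hv => ?_)))
    by_contra hno
    push Not at hno
    have := Fintype.ofFinite S.G
    unfold va at h3
    rw [Nat.card_eq_fintype_card] at h3
    have h5 : 2 < Fintype.card {v : S.G // S.q x v = S.zero} :=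
      Fintype.two_lt_card_iff.2 ⟨⟨1, S.q_one x⟩, ⟨x, qself hneg x⟩, ⟨v, hv⟩,
        fun e => hx (congrArg Subtype.val e).symm, fun e => hno.1 (congrArg Subtype.val e).symm,
        fun e => hno.2 (congrArg Subtype.val e).symm⟩
    omega
  intro g₀ v₀ hv₀
  have hall := all_viol hneg hk h4 hv₀
  -- one component
  have hs : g₀ ≠ 1 := hv₀.1.1
  set P := Pg hneg hk h4 hall g₀ hs with hP
  have hV : ∀ x ∈ P, x ≠ 1 → ∀ v, S.q x v = S.zero → v ∈ P := by
    intro x hx hx1 v hv
    by_cases hv1 : v = 1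
    · exact Or.inl hv1
    · exact Or.inr ((hx.resolve_left hx1).step hv1 hv)
  have hL : REG10.Lsub S P := by
    intro a ha b hb c hc d hd h
    obtain ⟨x, h1, h2⟩ := S.qs4 a b c d h
    by_cases ha1 : a = 1
    · by_cases hc1 : c = 1
      · refine ⟨1, P.one_mem, ?_, ?_⟩
        · rw [ha1, RF66.one_q' S, RF66.one_q' S]
        · rw [hc1, RF66.one_q' S, RF66.one_q' S]
      · refine ⟨x, ?_, h1, h2⟩
        have h3 : x * d ∈ P := hV c hc hc1 _ (qm h2.symm)
        have h5 := P.mul_mem h3 hd
        rwa [mul_assoc, S.exp_two, mul_one] at h5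
    · refine ⟨x, ?_, h1, h2⟩
      have h3 : x * b ∈ P := hV a ha ha1 _ (qm h1.symm)
      have h5 := P.mul_mem h3 hb
      rwa [mul_assoc, S.exp_two, mul_one] at h5
  have hv₀P : v₀ ∉ P := by
    rintro (h | h)
    · exact ne_one_of_q hv₀.2.1 h
    · exact not_viol hneg hk h4 h hv₀
  have hPt : P ≠ ⊤ := fun e => hv₀P (e ▸ Subgroup.mem_top _)
  have hE := RF66.hU_of hneg hsm P hL hPt
  set T := ESL.PRODRECX.sub S hneg P hL with hT
  have hz : ∀ x y : P, T.q x y = T.zero ↔ S.q x.1 y.1 = S.zero := by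
    intro x y
    exact ⟨fun h => congrArg Subtype.val h, fun h => Subtype.ext h⟩
  have hva : ∀ x : P, x ≠ 1 → va T x = va S g₀ := by
    intro x hx
    have hx1 : x.1 ≠ 1 := fun e => hx (Subtype.ext e)
    rw [va_eq hall hs hx1]
    unfold va
    refine Nat.card_congr
      { toFun := fun v => ⟨v.1.1, (hz x v.1).1 v.2⟩
        invFun := fun v => ⟨⟨v.1, hV x.1 x.2 hx1 v.1 v.2⟩, (hz x _).2 v.2⟩
        left_inv := fun _ => rfl
        right_inv := fun _ => rfl }
  -- the contradiction
  have hun : ∀ u, u ∉ P → S.q g₀ u ≠ S.zero ∧ ∃ w, w ≠ g₀ ∧ w ∈ P ∧ w ≠ 1 ∧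
      InQ S w (S.q g₀ u) := by
    intro u hu
    have hu1 : u ≠ 1 := fun e => hu (Or.inl e)
    have hc : ¬ Conn S g₀ u := fun h => hu (Or.inr h)
    obtain ⟨w, h1, h2, h3⟩ := seven hneg hk h4 hall hs hu1 hc
    exact ⟨fun h => hc (Relation.ReflTransGen.single ⟨hu1, h⟩), w, h1, Or.inr h2, h2.ne hs, h3⟩
  have hg₀P : g₀ ∈ P := Or.inr Relation.ReflTransGen.refl
  have hbd : ∀ w, w ≠ g₀ → cv S g₀ w * cq S g₀ w ≤ va S g₀ := by
    intro w hw
    rw [← card_mul]
    exact (all_heavy hall hs).2 _ (mul_ne_one fun e => hw e.symm)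
  have hpos := va_pos g₀
  rcases unif hE rfl (inferInstance : Finite P) (va S g₀) (h4 g₀ hs) hva with hiso | ⟨e, he, he2, he3⟩
  · obtain ⟨h0, w, h1, h2, h3, h5⟩ := hun v₀ hv₀P
    have h6 := hbd w h1
    have h7 : 2 ≤ cq S g₀ w := cq_two (inQ_self _ _) h5 h0
    have h8 : va S g₀ ≤ cv S g₀ w := by
      unfold va cv
      exact Nat.card_le_card_of_injective
        (fun v : {v : S.G // S.q g₀ v = S.zero} =>
          (⟨v.1, v.2, (hz ⟨w, h2⟩ ⟨v.1, hV g₀ hg₀P hs v.1 v.2⟩).1 (hiso _ _)⟩ :
            {v : S.G // S.q g₀ v = S.zero ∧ S.q w v = S.zero}))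
        (fun v v' e => Subtype.ext (congrArg (fun z => z.1) e))
    have h9 : cv S g₀ w * 2 ≤ cv S g₀ w * cq S g₀ w := Nat.mul_le_mul_left _ h7
    omega
  · have he' : e.1 ≠ S.zero := fun h => he (Subtype.ext h)
    have hval : ∀ x ∈ P, x ≠ 1 → InQ S x e.1 := by
      intro x hx hx1
      obtain ⟨y, hy⟩ := he3 ⟨x, hx⟩ fun h => hx1 (congrArg Subtype.val h)
      exact ⟨y.1, congrArg Subtype.val hy⟩
    have hq : ∀ u, u ∉ P → S.q g₀ u = e.1 := by
      intro u hu
      by_contra hne
      obtain ⟨h0, w, h1, h2, h3, h5⟩ := hun u hu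
      have h6 := hbd w h1
      have h7 : 3 ≤ cq S g₀ w := by
        have := finQ (S := S)
        have := Fintype.ofFinite S.Q
        unfold cq
        rw [Nat.card_eq_fintype_card]
        exact Fintype.two_lt_card_iff.2 ⟨⟨S.zero, inQ_zero _, inQ_zero _⟩,
          ⟨S.q g₀ u, inQ_self _ _, h5⟩, ⟨e.1, hval g₀ hg₀P hs, hval w h2 h3⟩,
          fun h => h0 (congrArg Subtype.val h).symm, fun h => he' (congrArg Subtype.val h).symm,
          fun h => hne (congrArg Subtype.val h)⟩
      have h8 : va S g₀ ≤ 2 * cv S g₀ w := by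
        refine half (e := e.1) fun v hv => ?_
        rcases he2 ⟨w, h2⟩ ⟨v, hV g₀ hg₀P hs v hv⟩ with h | h
        · exact Or.inl ((hz _ _).1 h)
        · exact Or.inr (congrArg Subtype.val h)
      have h9 : cv S g₀ w * 3 ≤ cv S g₀ w * cq S g₀ w := Nat.mul_le_mul_left _ h7
      omega
    have hv₀1 : v₀ ≠ 1 := ne_one_of_q hv₀.2.1
    obtain ⟨u, hu, hu1, hu2⟩ : ∃ u, S.q v₀ u = S.zero ∧ u ≠ 1 ∧ u ≠ v₀ := by
      by_contra hno
      push Not at hno
      have h5 : va S v₀ ≤ 2 := by
        have := Fintype.ofFinite S.G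
        have h6 : va S v₀ ≤ Nat.card {v : S.G // v ∈ ({1, v₀} : Finset S.G)} := by
          unfold va
          refine Nat.card_le_card_of_injective
            (fun v : {v : S.G // S.q v₀ v = S.zero} =>
              (⟨v.1, ?_⟩ : {v : S.G // v ∈ ({1, v₀} : Finset S.G)}))
            (fun v v' e => Subtype.ext (congrArg (fun z => z.1) e))
          rw [Finset.mem_insert, Finset.mem_singleton]
          by_cases h : v.1 = 1
          · exact Or.inl h
          · exact Or.inr (hno v.1 v.2 h)
        rw [Nat.card_eq_fintype_card, Fintype.card_coe] at h6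
        exact h6.trans Finset.card_le_two
      have := h4 v₀ hv₀1
      omega
    have hout : ∀ x, x ≠ 1 → S.q v₀ x = S.zero → x ∉ P := by
      intro x hx hx' hxP
      exact hv₀P (hV x hxP hx v₀ (by rw [S.qs2]; exact hx'))
    have h5 := hq v₀ hv₀P
    have h6 := hq u (hout u hu1 hu)
    have h7 := hq (v₀ * u) (hout _ (mul_ne_one fun e => hu2 e.symm) (by
      rw [qr (qself hneg v₀)]; exact hu))
    rw [qm (h5.trans h6.symm)] at h7
    exact he' h7.symm

/-- **a least structure which is not of elementary type, `-1 = 1`, in which law R fails at an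
element `g` with `|V_g|` largest, has such a `g` and an `s` with `V_g ∩ V_s ≠ 1`** -/
theorem exists_common [Finite S.G] (hneg : S.neg = 1) (hS : ¬ ElemType S)
    (hsm : ∀ T : QStruct, Finite T.G → T.neg = 1 → Nat.card T.G < Nat.card S.G → ElemType T)
    {g₀ s₀ : S.G} (hv : Viol S g₀ s₀) : ∃ g s x : S.G, Viol S g s ∧ x ≠ 1 ∧
      S.q g x = S.zero ∧ S.q s x = S.zero := by
  by_contra hno
  push Not at hno
  exact no_viol_of_K1 hneg hS hsm (fun g s h x h1 h2 => by
    by_contra hx
    exact hno g s x h hx h1 h2) g₀ s₀ hv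

end Pool.Agent.KAP66
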